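import Mathlib
import Pool.Agent.Lib_helper95.RatFuncDeriv
import Pool.Agent.Lib_helper95.LogPoint

/-!
# A hyperelliptic curve of genus 3 over `ℚ` whose Jacobian is isogenous over `ℚ` to `E³`

The curve is `C : s² = g₀(t) = (t² + 3)(3t² + 5)(t⁴ + 7t² + 16)` and the elliptic curve is
`E : y² = x³ + 41x² + 400x = x(x + 16)(x + 25)` (of conductor 15).
-/

open Polynomial WeierstrassCurve Pool.Agent.LibHelper95

namespace Pool.Agent.Results.MP_ae744f_nt.JacobianIsogenousToCube

noncomputable section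

/-- The function field `ℚ(C_g) = ℚ(t)(√g(t))` of the curve `C_g : s² = g(t)`, realised as the
splitting field of the polynomial `Y² - g(t)` over the field `ℚ(t)`. -/
abbrev FunField (g : ℚ[X]) : Type :=
  (X ^ 2 - C (algebraMap ℚ[X] (RatFunc ℚ) g) : (RatFunc ℚ)[X]).SplittingField

/-- The genus `⌊(d - 1) / 2⌋` of `C_g : s² = g(t)`, for `g` separable of degree `d ≥ 3`. -/
def genus (g : ℚ[X]) : ℕ := (g.natDegree - 1) / 2

/-- The pull-back `P^*(dx / (2y + a₁x + a₃))` of the invariant differential of `E` along the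
morphism to `E` given by a point `P` of `E` over a field `K ⊇ ℚ` (below `K = ℚ(C_g)`), in the space
`Ω_{K/ℚ}` of Kähler differentials. (It is `0` for the point at infinity and for every constant
point.) -/
def pullback {K : Type*} [Field K] [Algebra ℚ K] (E : WeierstrassCurve ℚ) :
    Affine.Point (E⁄K) → KaehlerDifferential ℚ K
  | .zero => 0
  | .some x y _ =>
    (2 * y + algebraMap ℚ K E.a₁ * x + algebraMap ℚ K E.a₃)⁻¹ • KaehlerDifferential.D ℚ K x

open scoped Classical in
/-- `IndependentMaps g E r`: there are `r` morphisms `C_g → E` over `ℚ` (that is, `r` points of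
`E` over the function field `ℚ(C_g)`) such that
* they are `ℤ`-linearly independent modulo the constant morphisms, i.e. modulo `E(ℚ)`, and
* the pull-backs of the invariant differential of `E` under them are linearly independent
  over `ℚ`.

For `r = genus g` the second condition says that the pull-backs are a basis of `H⁰(C_g, Ω¹)`, the
cotangent space of the Jacobian `J_g`, so that the homomorphism `J_g → E^r` over `ℚ` induced by the
`r` morphisms is an isomorphism on cotangent spaces, i.e. an isogeny. -/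
def IndependentMaps (g : ℚ[X]) (E : WeierstrassCurve ℚ) (r : ℕ) : Prop :=
  ∃ P : Fin r → Affine.Point (E⁄(FunField g)),
    (∀ n : Fin r → ℤ,
      ∑ i, n i • P i ∈ (Affine.Point.baseChange (W' := E) ℚ (FunField g)).range → n = 0) ∧
    LinearIndependent ℚ fun i => pullback E (P i)

/-- `g₀(t) = (t² + 3)(3t² + 5)(t⁴ + 7t² + 16)`. -/
def g₀ : ℚ[X] := (X ^ 2 + 3) * (3 * X ^ 2 + 5) * (X ^ 4 + 7 * X ^ 2 + 16)

/-- `E₀ : y² = x³ + 41x² + 400x = x(x + 16)(x + 25)`. -/
def E₀ : WeierstrassCurve ℚ := ⟨0, 41, 0, 400, 0⟩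

theorem g₀_natDegree : g₀.natDegree = 8 := by
  unfold g₀
  compute_degree!

theorem E₀_isElliptic : E₀.IsElliptic := by
  rw [WeierstrassCurve.isElliptic_iff, isUnit_iff_ne_zero]
  norm_num [E₀, WeierstrassCurve.Δ, WeierstrassCurve.b₂, WeierstrassCurve.b₄,
    WeierstrassCurve.b₆, WeierstrassCurve.b₈]

theorem g₀_eq : g₀ = 3 * X ^ 8 + 35 * X ^ 6 + 161 * X ^ 4 + 329 * X ^ 2 + 240 := by
  unfold g₀; ring

theorem g₀_derivative : derivative g₀ = 24 * X ^ 7 + 210 * X ^ 5 + 644 * X ^ 3 + 658 * X := by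
  rw [g₀_eq]
  have hC : ∀ n : ℕ, (C (n : ℚ) : ℚ[X]) = n := fun n => map_natCast C n
  simp only [derivative_add, derivative_mul, derivative_X_pow, derivative_ofNat, hC]
  push_cast
  ring

theorem g₀_separable : g₀.Separable := by
  rw [Polynomial.Separable]
  refine ⟨C (1 / 983040) * (4096 + 273070 * X ^ 2 + 146874 * X ^ 4 + 24024 * X ^ 6),
    C (1 / 983040) * (-101648 * X - 91623 * X ^ 3 - 27118 * X ^ 5 - 3003 * X ^ 7), ?_⟩
  rw [g₀_derivative, g₀_eq]
  have h : C (1 / 983040 : ℚ) * (983040 : ℚ[X]) = 1 := by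
    have : (983040 : ℚ[X]) = C 983040 := rfl
    rw [this, ← C_mul]
    norm_num
  linear_combination h

section LogSubgroup

variable {K : Type*} [Field K] [DecidableEq K]

/-- the graph of the logarithmic map is a subgroup -/
def logSubgroup (D : Derivation ℤ K K) (W : WeierstrassCurve.Affine K) (hW : ConstShort D W) :
    AddSubgroup (W.Point × K) where
  carrier := {x | IsLog D W x.1 x.2}
  add_mem' := fun ha hb => IsLog.add hW ha hb
  zero_mem' := (IsLog.zero : IsLog D W 0 0)
  neg_mem' := fun ha => IsLog.neg hW ha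

theorem isLog_sum {D : Derivation ℤ K K} {W : WeierstrassCurve.Affine K} (hW : ConstShort D W)
    {r : ℕ} {P : Fin r → W.Point} {l : Fin r → K} (h : ∀ i, IsLog D W (P i) (l i))
    (n : Fin r → ℤ) : IsLog D W (∑ i, n i • P i) (∑ i, n i • l i) := by
  have : (∑ i, n i • ((P i, l i) : W.Point × K)) ∈ logSubgroup D W hW := by
    refine sum_mem fun i _ => zsmul_mem ?_ _
    exact h i
  have e : (∑ i, n i • ((P i, l i) : W.Point × K)) = (∑ i, n i • P i, ∑ i, n i • l i) := by
    ext
    · simp [Prod.fst_sum]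
    · simp [Prod.snd_sum]
  rw [e] at this
  exact this

end LogSubgroup

section Generic

variable {K : Type*} [Field K] [Algebra ℚ K]

theorem constShort_E₀ (D : Derivation ℤ K K) (hD : ∀ q : ℚ, D (algebraMap ℚ K q) = 0) :
    ConstShort D (E₀⁄K) := by
  constructor
  · change algebraMap ℚ K 0 = 0
    exact map_zero _
  · change algebraMap ℚ K 0 = 0
    exact map_zero _
  · exact hD _
  · exact hD _
  · exact hD _

theorem equation_E₀ {x y : K} (h : y ^ 2 = x ^ 3 + 41 * x ^ 2 + 400 * x) :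
    (WeierstrassCurve.Affine.Equation (E₀⁄K) x y) := by
  rw [WeierstrassCurve.Affine.equation_iff]
  have h1 : (E₀⁄K).a₁ = 0 := map_zero _
  have h2 : (E₀⁄K).a₂ = 41 := map_ofNat _ 41
  have h3 : (E₀⁄K).a₃ = 0 := map_zero _
  have h4 : (E₀⁄K).a₄ = 400 := map_ofNat _ 400
  have h6 : (E₀⁄K).a₆ = 0 := map_zero _
  rw [h1, h2, h3, h4, h6]
  linear_combination h

theorem exists_point (D : Derivation ℤ K K) (hD : ∀ q : ℚ, D (algebraMap ℚ K q) = 0) {x y l : K}
    (h : y ^ 2 = x ^ 3 + 41 * x ^ 2 + 400 * x) (hy : y ≠ 0) (hx : D x = 2 * y * l) :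
    ∃ P : Affine.Point (E₀⁄K), IsLog D _ P l := by
  have _ := E₀_isElliptic
  have _ : (E₀⁄K).IsElliptic := inferInstanceAs (E₀.map (algebraMap ℚ K)).IsElliptic
  have hE := equation_E₀ h
  have hns : WeierstrassCurve.Affine.Nonsingular (E₀⁄K) x y :=
    (WeierstrassCurve.Affine.equation_iff_nonsingular).mp hE
  have _ : CharZero K := charZero_of_injective_algebraMap (algebraMap ℚ K).injective
  exact ⟨.some x y hns, isLog_of_y_ne_zero (constShort_E₀ D hD) two_ne_zero hy hx⟩

theorem exists_points (D : Derivation ℤ K K) (hD : ∀ q : ℚ, D (algebraMap ℚ K q) = 0) (t s : K)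
    (hne : ∀ p : ℚ[X], p ≠ 0 → aeval t p ≠ 0)
    (hs : s ^ 2 = (t ^ 2 + 3) * (3 * t ^ 2 + 5) * (t ^ 4 + 7 * t ^ 2 + 16)) (hDt : D t = 1) :
    ∃ P : Fin 3 → Affine.Point (E₀⁄K),
      ∀ i, IsLog D _ (P i) ((![t ^ 2 - 2 * t + 5, t ^ 2 + 2 * t + 5, 2 * (t ^ 2 + 1)] i) / (2 * s))
      := by
  have _ : CharZero K := charZero_of_injective_algebraMap (algebraMap ℚ K).injective
  have hnum : ∀ n : ℕ, D ((n : ℕ) : K) = 0 := fun n => D.map_natCast n
  have key : ∀ (p : ℚ[X]) (q : ℚ) (v : K), aeval t p = v → p.eval q ≠ 0 → v ≠ 0 := by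
    rintro p q v rfl h
    apply hne
    rintro rfl
    simp at h
  have t0 : t ≠ 0 := key X 1 _ (aeval_X t) (by norm_num)
  have t1 : t + 1 ≠ 0 := key (X + 1) 1 _ (by simp) (by norm_num)
  have t1' : t - 1 ≠ 0 := key (X - 1) 2 _ (by simp) (by norm_num)
  have t3 : t + 3 ≠ 0 := key (X + 3) 1 _ (by simp [map_ofNat]) (by norm_num)
  have t3' : t - 3 ≠ 0 := key (X - 3) 1 _ (by simp [map_ofNat]) (by norm_num)
  have t23 : t ^ 2 + 3 ≠ 0 := key (X ^ 2 + 3) 1 _ (by simp [map_ofNat]) (by norm_num)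
  have t25 : t ^ 2 + 5 ≠ 0 := key (X ^ 2 + 5) 1 _ (by simp [map_ofNat]) (by norm_num)
  have t7 : 3 * t ^ 2 + 2 * t + 7 ≠ 0 :=
    key (3 * X ^ 2 + 2 * X + 7) 1 _ (by simp [map_ofNat]) (by norm_num)
  have t7' : 3 * t ^ 2 - 2 * t + 7 ≠ 0 :=
    key (3 * X ^ 2 - 2 * X + 7) 1 _ (by simp [map_ofNat]) (by norm_num)
  have t35 : 3 * t ^ 2 + 5 ≠ 0 := key (3 * X ^ 2 + 5) 1 _ (by simp [map_ofNat]) (by norm_num)
  have t4 : t ^ 4 + 7 * t ^ 2 + 16 ≠ 0 :=
    key (X ^ 4 + 7 * X ^ 2 + 16) 1 _ (by simp [map_ofNat]) (by norm_num)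
  have s0 : s ≠ 0 := by
    intro h
    rw [h] at hs
    have : (t ^ 2 + 3) * (3 * t ^ 2 + 5) * (t ^ 4 + 7 * t ^ 2 + 16) ≠ 0 :=
      mul_ne_zero (mul_ne_zero t23 t35) t4
    apply this
    rw [← hs]; ring
  have d2 : D (2 : K) = 0 := by exact_mod_cast hnum 2
  have d3 : D (3 : K) = 0 := by exact_mod_cast hnum 3
  have d4 : D (4 : K) = 0 := by exact_mod_cast hnum 4
  have d5 : D (5 : K) = 0 := by exact_mod_cast hnum 5
  -- the three points
  have P1 : ∃ P : Affine.Point (E₀⁄K), IsLog D _ P ((t ^ 2 - 2 * t + 5) / (2 * s)) := by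
    refine exists_point D hD (x := 2 * (t ^ 2 - t + 4) * (t - 3) ^ 2 / ((t + 1) ^ 2 * (t ^ 2 + 3)))
      (y := 6 * (t - 3) * (3 * t ^ 2 + 2 * t + 7) / ((t + 1) ^ 3 * (t ^ 2 + 3) ^ 2) * s) ?_ ?_ ?_
    · rw [mul_pow, hs]
      field_simp
      ring
    · refine mul_ne_zero (div_ne_zero ?_ ?_) s0
      · exact mul_ne_zero (mul_ne_zero (by norm_num) t3') t7
      · exact mul_ne_zero (pow_ne_zero _ t1) (pow_ne_zero _ t23)
    · rw [Derivation.leibniz_div]
      simp only [map_add, map_sub, Derivation.leibniz, Derivation.leibniz_pow, smul_eq_mul,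
        nsmul_eq_mul, d2, d3, d4, hDt, Derivation.map_one_eq_zero]
      push_cast
      field_simp
      ring
  have P2 : ∃ P : Affine.Point (E₀⁄K), IsLog D _ P ((t ^ 2 + 2 * t + 5) / (2 * s)) := by
    refine exists_point D hD (x := 2 * (t ^ 2 + t + 4) * (t + 3) ^ 2 / ((t - 1) ^ 2 * (t ^ 2 + 3)))
      (y := -6 * (t + 3) * (3 * t ^ 2 - 2 * t + 7) / ((t - 1) ^ 3 * (t ^ 2 + 3) ^ 2) * s) ?_ ?_ ?_
    · rw [mul_pow, hs]
      field_simp
      ring
    · refine mul_ne_zero (div_ne_zero ?_ ?_) s0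
      · exact mul_ne_zero (mul_ne_zero (by norm_num) t3) t7'
      · exact mul_ne_zero (pow_ne_zero _ t1') (pow_ne_zero _ t23)
    · rw [Derivation.leibniz_div]
      simp only [map_add, map_sub, Derivation.leibniz, Derivation.leibniz_pow, smul_eq_mul,
        nsmul_eq_mul, d2, d3, d4, hDt, Derivation.map_one_eq_zero]
      push_cast
      field_simp
      ring
  have P3 : ∃ P : Affine.Point (E₀⁄K), IsLog D _ P (2 * (t ^ 2 + 1) / (2 * s)) := by
    refine exists_point D hD (x := t ^ 2 * (3 * t ^ 2 + 5) / (t ^ 2 + 3))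
      (y := 3 * t * (t ^ 2 + 5) / (t ^ 2 + 3) ^ 2 * s) ?_ ?_ ?_
    · rw [mul_pow, hs]
      field_simp
      ring
    · refine mul_ne_zero (div_ne_zero ?_ ?_) s0
      · exact mul_ne_zero (mul_ne_zero (by norm_num) t0) t25
      · exact pow_ne_zero _ t23
    · rw [Derivation.leibniz_div]
      simp only [map_add, Derivation.leibniz, Derivation.leibniz_pow, smul_eq_mul,
        nsmul_eq_mul, d3, d5, hDt]
      push_cast
      field_simp
      ring
  obtain ⟨P1, h1⟩ := P1
  obtain ⟨P2, h2⟩ := P2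
  obtain ⟨P3, h3⟩ := P3
  refine ⟨![P1, P2, P3], fun i => ?_⟩
  fin_cases i
  · exact h1
  · exact h2
  · exact h3

end Generic

theorem exists_setup (g : ℚ[X]) : ∃ (_ : Differential (FunField g))
    (t s : FunField g), (∀ p : ℚ[X], p ≠ 0 → aeval t p ≠ 0) ∧
    s ^ 2 = aeval t g ∧ Differential.deriv t = 1 ∧
    (∀ q : ℚ, Differential.deriv (algebraMap ℚ (FunField g) q) = 0) := by
  let _ : Differential (RatFunc ℚ) := ratFuncDifferential
  have _ : FiniteDimensional (RatFunc ℚ) (FunField g) := inferInstance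
  let _ : Differential (FunField g) :=
    Differential.differentialFiniteDimensional (RatFunc ℚ) (FunField g)
  have hDA : DifferentialAlgebra (RatFunc ℚ) (FunField g) :=
    Differential.differentialAlgebraFiniteDimensional
  have hQ : ∀ q : ℚ, algebraMap ℚ (FunField g) q
      = algebraMap (RatFunc ℚ) (FunField g) (algebraMap ℚ[X] (RatFunc ℚ) (C q)) := by
    intro q
    have : (algebraMap ℚ (FunField g)) = ((algebraMap (RatFunc ℚ) (FunField g)).comp
      (algebraMap ℚ[X] (RatFunc ℚ))).comp C := Subsingleton.elim _ _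
    rw [this]; rfl
  set t : FunField g := algebraMap (RatFunc ℚ) (FunField g) RatFunc.X with ht
  have hD : ∀ p : ℚ[X], Differential.deriv
      (algebraMap (RatFunc ℚ) (FunField g) (algebraMap ℚ[X] (RatFunc ℚ) p))
      = algebraMap (RatFunc ℚ) (FunField g) (algebraMap ℚ[X] (RatFunc ℚ) (derivative p)) := by
    intro p
    rw [DifferentialAlgebra.deriv_algebraMap]
    congr 1
    exact ddtAdd_algebraMap p
  have haeval : ∀ p : ℚ[X], aeval t p
      = algebraMap (RatFunc ℚ) (FunField g) (algebraMap ℚ[X] (RatFunc ℚ) p) := by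
    intro p
    induction p using Polynomial.induction_on with
    | C a => rw [aeval_C, hQ]
    | add p q hp hq => rw [map_add, hp, hq, map_add, map_add]
    | monomial n a h =>
      rw [map_mul, aeval_C, map_mul, map_mul, hQ, map_pow, aeval_X, map_pow, map_pow,
        RatFunc.algebraMap_X]
  obtain ⟨s, hs⟩ : ∃ s : FunField g, s ^ 2 = aeval t g := by
    have hsp := SplittingField.splits
      (X ^ 2 - C (algebraMap ℚ[X] (RatFunc ℚ) g) : (RatFunc ℚ)[X])
    have hdeg : ((X ^ 2 - C (algebraMap ℚ[X] (RatFunc ℚ) g) : (RatFunc ℚ)[X]).map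
        (algebraMap (RatFunc ℚ) (FunField g))).degree ≠ 0 := by
      rw [Polynomial.degree_map, Polynomial.degree_X_pow_sub_C (by norm_num)]
      norm_num
    obtain ⟨s, hs⟩ := hsp.exists_eval_eq_zero hdeg
    refine ⟨s, ?_⟩
    rw [haeval]
    simp only [Polynomial.map_sub, Polynomial.map_pow, map_X, map_C, eval_sub, eval_pow, eval_X,
      eval_C] at hs
    linear_combination hs
  refine ⟨inferInstance, t, s, ?_, hs, ?_, ?_⟩
  · intro p hp
    rw [haeval]
    intro h0
    apply hp
    have h1 := (algebraMap (RatFunc ℚ) (FunField g)).injective (h0.trans (map_zero _).symm)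
    exact (IsFractionRing.injective ℚ[X] (RatFunc ℚ)) (h1.trans (map_zero _).symm)
  · have := hD X
    rw [RatFunc.algebraMap_X, derivative_X, map_one, map_one] at this
    exact this
  · intro q
    rw [hQ, hD, derivative_C, map_zero, map_zero]

/-- A `ℤ`-derivation of a field over `ℚ` is a `ℚ`-derivation. -/
def ratDerivation {K : Type*} [Field K] [Algebra ℚ K] (D : Derivation ℤ K K)
    (hD : ∀ q : ℚ, D (algebraMap ℚ K q) = 0) : Derivation ℚ K K where
  toFun := D
  map_add' := D.map_add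
  map_smul' q x := by
    rw [Algebra.smul_def, Derivation.leibniz, hD, smul_zero, add_zero, smul_eq_mul,
      RingHom.id_apply, Algebra.smul_def]
  map_one_eq_zero' := D.map_one_eq_zero
  leibniz' := D.leibniz

/-- The value at `D` of the pull-back of the invariant differential. -/
theorem lift_pullback {K : Type*} [Field K] [Algebra ℚ K] (D : Derivation ℤ K K)
    (hD : ∀ q : ℚ, D (algebraMap ℚ K q) = 0) {P : Affine.Point (E₀⁄K)}
    {l : K} (h : IsLog D (E₀⁄K) P l) :
    (ratDerivation D hD).liftKaehlerDifferential (pullback E₀ P) = l := by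
  have _ : CharZero K := charZero_of_injective_algebraMap (algebraMap ℚ K).injective
  have hW := constShort_E₀ D hD
  cases P with
  | zero =>
    have h0 : l = 0 := h
    rw [h0]
    exact map_zero _
  | some x y hns =>
    obtain ⟨h1, h2⟩ := h
    have e : pullback E₀ (.some x y hns) = (2 * y)⁻¹ • KaehlerDifferential.D ℚ K x := by
      have a1 : E₀.a₁ = 0 := rfl
      have a3 : E₀.a₃ = 0 := rfl
      change (2 * y + algebraMap ℚ K E₀.a₁ * x + algebraMap ℚ K E₀.a₃)⁻¹ • _ = _
      rw [a1, a3, map_zero, zero_mul, add_zero, add_zero]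
    rw [e, map_smul, Derivation.liftKaehlerDifferential_comp_D]
    change (2 * y)⁻¹ • D x = l
    rw [smul_eq_mul, h1]
    rcases hW.nonsing hns with h0 | h0
    · by_cases hy : 2 * y = 0
      · have : l = 0 := by
          have hy' : y = 0 := by
            rcases mul_eq_zero.mp hy with h | h
            · exact absurd h two_ne_zero
            · exact h
          rw [hy', map_zero] at h2
          rcases mul_eq_zero.mp h2.symm with h | h
          · exact absurd h h0
          · exact h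
        rw [this]; simp
      · exact inv_mul_cancel_left₀ hy l
    · exact inv_mul_cancel_left₀ h0 l

/-- The three functions are linearly independent over `ℚ`. -/
theorem linearIndependent_three {K : Type*} [Field K] [Algebra ℚ K] (t s : K)
    (hne : ∀ p : ℚ[X], p ≠ 0 → aeval t p ≠ 0) (s0 : s ≠ 0) :
    LinearIndependent ℚ fun i : Fin 3 =>
      (![t ^ 2 - 2 * t + 5, t ^ 2 + 2 * t + 5, 2 * (t ^ 2 + 1)] i) / (2 * s) := by
  have _ : CharZero K := charZero_of_injective_algebraMap (algebraMap ℚ K).injective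
  rw [Fintype.linearIndependent_iff]
  intro c h3
  have h4 : aeval t (C (c 0) * (X ^ 2 - 2 * X + 5) + C (c 1) * (X ^ 2 + 2 * X + 5)
      + C (c 2) * (2 * (X ^ 2 + 1))) = 0 := by
    rw [Fin.sum_univ_three] at h3
    simp only [Matrix.cons_val_zero, Matrix.cons_val_one, Matrix.cons_val, Algebra.smul_def] at h3
    have h2s : (2 : K) * s ≠ 0 := mul_ne_zero two_ne_zero s0
    field_simp at h3
    simp only [map_add, map_mul, map_sub, map_pow, aeval_X, map_ofNat, map_one, aeval_C]
    linear_combination h3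
  have h5 : (C (c 0) * (X ^ 2 - 2 * X + 5) + C (c 1) * (X ^ 2 + 2 * X + 5)
      + C (c 2) * (2 * (X ^ 2 + 1)) : ℚ[X]) = 0 := by
    by_contra h
    exact hne _ h h4
  have e0 := congrArg (Polynomial.eval 0) h5
  have e1 := congrArg (Polynomial.eval 1) h5
  have e2 := congrArg (Polynomial.eval (-1)) h5
  simp at e0 e1 e2
  norm_num at e0 e1 e2
  have f0 : c 0 = 0 := by linarith
  have f1 : c 1 = 0 := by linarith
  have f2 : c 2 = 0 := by linarith
  intro i
  fin_cases i
  · exact f0
  · exact f1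
  · exact f2

open scoped Classical in
theorem independentMaps_three : IndependentMaps g₀ E₀ 3 := by
  obtain ⟨hDiff, t, s, hne, hs, hDt, hDq⟩ := exists_setup g₀
  have hg : aeval t ((X ^ 2 + 3) * (3 * X ^ 2 + 5) * (X ^ 4 + 7 * X ^ 2 + 16) : ℚ[X])
      = (t ^ 2 + 3) * (3 * t ^ 2 + 5) * (t ^ 4 + 7 * t ^ 2 + 16) := by
    simp only [map_mul, map_add, map_pow, aeval_X, map_ofNat]
  have hs' : s ^ 2 = (t ^ 2 + 3) * (3 * t ^ 2 + 5) * (t ^ 4 + 7 * t ^ 2 + 16) := hs.trans hg
  obtain ⟨P, hP⟩ := exists_points hDiff.deriv hDq t s hne hs' hDt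
  have hW := constShort_E₀ hDiff.deriv hDq
  have s0 : s ≠ 0 := by
    rintro rfl
    apply hne g₀ g₀_separable.ne_zero
    rw [← hs]; ring
  have hlin := linearIndependent_three t s hne s0
  refine ⟨P, fun n hn => ?_, ?_⟩
  · obtain ⟨c, hc⟩ := hn
    have h1 := isLog_sum hW hP n
    have h2 : IsLog hDiff.deriv _ (∑ i, n i • P i) 0 := by
      rw [← hc]
      cases c with
      | zero => exact rfl
      | some x y h =>
        constructor
        · rw [mul_zero]; exact hDq x
        · rw [mul_zero]; exact hDq y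
    have h3 := IsLog.unique hW h1 h2
    have h4 := Fintype.linearIndependent_iff.mp hlin (fun i => (n i : ℚ)) (by
      rw [← h3]
      refine Finset.sum_congr rfl fun i _ => ?_
      rw [Algebra.smul_def, map_intCast, zsmul_eq_mul])
    funext i
    exact_mod_cast h4 i
  · apply LinearIndependent.of_comp
      ((ratDerivation hDiff.deriv hDq).liftKaehlerDifferential.restrictScalars ℚ)
    have e : (((ratDerivation hDiff.deriv hDq).liftKaehlerDifferential.restrictScalars ℚ) ∘
        fun i => pullback E₀ (P i)) = fun i : Fin 3 =>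
        (![t ^ 2 - 2 * t + 5, t ^ 2 + 2 * t + 5, 2 * (t ^ 2 + 1)] i) / (2 * s) := by
      funext i
      exact lift_pullback hDiff.deriv hDq (hP i)
    rw [e]
    exact hlin

/-- **Main result.** The polynomial `g₀ = (t² + 3)(3t² + 5)(t⁴ + 7t² + 16)` is separable of degree
`8`, so the curve `C : s² = g₀(t)` has genus `3`; `E₀ : y² = x(x + 16)(x + 25)` is an elliptic
curve; and there are three morphisms `C → E₀` over `ℚ` which are `ℤ`-linearly independent in
`E₀(ℚ(C)) / E₀(ℚ)` and pull the invariant differential of `E₀` back to three linearly independent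
differentials, i.e. (since the genus is `3`) to a basis of `H⁰(C, Ω¹)`.

The induced homomorphism `J → E₀³` over `ℚ`, `J` the Jacobian of `C`, is therefore an isomorphism
on (co)tangent spaces, i.e. an isogeny: `J` is isogenous over `ℚ` to `E₀³`. -/
theorem result :
    g₀.Separable ∧ g₀.natDegree = 8 ∧ genus g₀ = 3 ∧ E₀.IsElliptic ∧ IndependentMaps g₀ E₀ 3 := by
  refine ⟨g₀_separable, g₀_natDegree, ?_, E₀_isElliptic, independentMaps_three⟩
  rw [genus, g₀_natDegree]

end

end Pool.Agent.Results.MP_ae744f_nt.JacobianIsogenousToCube
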